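import Mathlib
import Pool.Agent.H916R2.OddChar
import Pool.Agent.TH487.RP.Alg
import Pool.Agent.TH487.RP.PV

set_option autoImplicit false

/-!
The sum of an odd character over the first half of the residues does not vanish.
-/

namespace Pool.Agent.Y811.RG

open Finset Pool.Agent.H916R2 Pool.Agent.TH487.RP

lemma saw_nat {p : ℕ} {n : ℕ} (h0 : 0 < n) (hn : n < p) :
    saw ((n : ℕ) : ZMod p) = 2 * (n : ℤ) - p := by
  have hne : ((n : ℕ) : ZMod p) ≠ 0 := by
    intro h
    rw [ZMod.natCast_eq_zero_iff] at h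
    exact absurd (Nat.le_of_dvd h0 h) (by omega)
  unfold saw
  rw [if_neg hne, ZMod.val_natCast_of_lt hn]

/-- the sum against the sawtooth does not vanish -/
lemma saw_ne_zero {p : ℕ} [Fact p.Prime] (χ : DirichletCharacter ℂ p) (hχ : χ.Odd) :
    ∑ b : ZMod p, χ b * (saw b : ℂ) ≠ 0 := by
  intro h
  obtain ⟨a, ha⟩ := exists_SS_ne_zero χ hχ
  have ha0 : a ≠ 0 := by
    rintro rfl
    apply ha
    unfold SS
    refine sum_eq_zero fun t _ => ?_
    rw [mul_zero, saw_zero, Int.cast_zero, mul_zero]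
  apply ha
  have h1 : SS χ a = ∑ b : ZMod p, χ b * (saw (b * a) : ℂ) := by
    unfold SS
    classical
    have h2 : ∑ b : ZMod p, χ b * (saw (b * a) : ℂ) =
        ∑ b ∈ univ.filter (fun b : ZMod p => IsUnit b), χ b * (saw (b * a) : ℂ) := by
      symm
      apply sum_subset (filter_subset _ _)
      intro b _ hb
      rw [mem_filter, not_and] at hb
      rw [MulChar.map_nonunit χ (hb (mem_univ _)), zero_mul]
    rw [h2]
    refine sum_bij' (fun t _ => (t : ZMod p)) (fun b hb => (mem_filter.1 hb).2.unit) ?_ ?_ ?_ ?_ ?_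
    · intro t _
      exact mem_filter.2 ⟨mem_univ _, t.isUnit⟩
    · intro b hb
      exact mem_univ _
    · intro t _
      ext
      simp
    · intro b hb
      simp
    · intro t _
      rfl
  have h3 : ∑ b : ZMod p, χ b * (saw (b * a) : ℂ) = χ a⁻¹ * ∑ b : ZMod p, χ b * (saw b : ℂ) := by
    rw [mul_sum, ← Equiv.sum_comp (Equiv.mulRight₀ a ha0)
      (fun b : ZMod p => χ a⁻¹ * (χ b * (saw b : ℂ)))]
    refine sum_congr rfl fun b _ => ?_
    have h5 : (Equiv.mulRight₀ a ha0) b = b * a := rfl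
    have h6 : χ a⁻¹ * χ a = 1 := by rw [← map_mul, inv_mul_cancel₀ ha0, map_one]
    rw [h5, map_mul]
    linear_combination (-(χ b * (saw (b * a) : ℂ))) * h6
  rw [h1, h3, h, mul_zero]

/-- the half sum of an odd character does not vanish -/
theorem half_ne_zero {p : ℕ} [Fact p.Prime] {M : ℕ} (hM : p = 2 * M + 1)
    (χ : DirichletCharacter ℂ p) (hχ : χ.Odd) :
    ∑ v ∈ range M, χ (((v + 1 : ℕ)) : ZMod p) ≠ 0 := by
  have hpp : p.Prime := Fact.out
  have hM0 : 0 < M := by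
    have := hpp.two_le
    omega
  intro hS
  apply saw_ne_zero χ hχ
  have h20 : (2 : ZMod p) ≠ 0 := by
    have : ((2 : ℕ) : ZMod p) ≠ 0 := by
      intro h
      rw [ZMod.natCast_eq_zero_iff] at h
      exact absurd (Nat.le_of_dvd (by norm_num) h) (by omega)
    exact_mod_cast this
  set T : ℂ := ∑ b : ZMod p, χ b * (saw b : ℂ) with hT
  have h1 : T = χ 2 * ∑ b : ZMod p, χ b * (saw (2 * b) : ℂ) := by
    rw [hT, mul_sum, ← Equiv.sum_comp (Equiv.mulLeft₀ (2 : ZMod p) h20)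
      (fun b : ZMod p => (χ b * (saw b : ℂ)))]
    refine sum_congr rfl fun b _ => ?_
    have h5 : (Equiv.mulLeft₀ (2 : ZMod p) h20) b = 2 * b := rfl
    rw [h5, map_mul, mul_assoc]
  have hodd : ∀ b : ZMod p, χ (-b) = - χ b := fun b => DirichletCharacter.Odd.eval_neg (ψ := χ) b hχ
  have h2 : T = 2 * ∑ v ∈ range M, χ (((v + 1 : ℕ)) : ZMod p) * ((2 * ((v + 1 : ℕ) : ℤ) - p : ℤ) : ℂ) := by
    rw [hT, sum_zmod p M hM, saw_zero, Int.cast_zero, mul_zero, zero_add, mul_sum]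
    refine sum_congr rfl fun v hv => ?_
    rw [mem_range] at hv
    rw [hodd, saw_neg, saw_nat (Nat.succ_pos v) (by omega)]
    push_cast
    ring
  have h3 : ∑ b : ZMod p, χ b * (saw (2 * b) : ℂ) =
      2 * ∑ v ∈ range M, χ (((v + 1 : ℕ)) : ZMod p) * ((4 * ((v + 1 : ℕ) : ℤ) - p : ℤ) : ℂ) := by
    rw [sum_zmod p M hM, mul_zero, saw_zero, Int.cast_zero, mul_zero, zero_add, mul_sum]
    refine sum_congr rfl fun v hv => ?_
    rw [mem_range] at hv
    have h5 : (2 : ZMod p) * ((v + 1 : ℕ) : ZMod p) = ((2 * (v + 1) : ℕ) : ZMod p) := by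
      push_cast
      ring
    rw [hodd, mul_neg, saw_neg, h5, saw_nat (by omega) (by omega)]
    push_cast
    ring
  have h4 : ∑ b : ZMod p, χ b * (saw (2 * b) : ℂ) = 2 * T := by
    rw [h3, h2, ← sub_eq_zero]
    have : ∑ v ∈ range M, χ (((v + 1 : ℕ)) : ZMod p) * ((4 * ((v + 1 : ℕ) : ℤ) - p : ℤ) : ℂ) -
        2 * ∑ v ∈ range M, χ (((v + 1 : ℕ)) : ZMod p) * ((2 * ((v + 1 : ℕ) : ℤ) - p : ℤ) : ℂ) = 
        p * ∑ v ∈ range M, χ (((v + 1 : ℕ)) : ZMod p) := by
      rw [mul_sum, mul_sum, ← sum_sub_distrib]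
      refine sum_congr rfl fun v _ => ?_
      push_cast
      ring
    rw [← mul_sub, this, hS, mul_zero, mul_zero]
  rw [h4] at h1
  by_contra hT0
  have h6 : χ 2 * 2 = 1 := by
    have h7 : (χ 2 * 2) * T = 1 * T := by
      rw [one_mul, mul_assoc]
      exact h1.symm
    exact mul_right_cancel₀ hT0 h7
  have h8 : ‖χ 2‖ = 1 := by
    have hu : IsUnit (2 : ZMod p) := isUnit_iff_ne_zero.2 h20
    obtain ⟨u, hu'⟩ := hu
    rw [← hu']
    exact DirichletCharacter.unit_norm_eq_one χ u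
  have h9 := congrArg norm h6
  rw [norm_mul, h8, norm_one] at h9
  norm_num at h9

end Pool.Agent.Y811.RG
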