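import Mathlib
import Pool.Agent.Y811.RG.Half
import Pool.Agent.TH350.SC.Bern

set_option autoImplicit false

/-!
Irregular indices in a Galois orbit.
-/

namespace Pool.Agent.Y811.RG

open Finset Polynomial Pool.Agent.TH487.RP

/-- if `p` divides the numerator of `B_{2m}` then the half sum of the powers is divisible by `p` -/
theorem half_pow {p : ℕ} [Fact p.Prime] {M : ℕ} (hM : p = 2 * M + 1) {m : ℕ} (hm : 1 ≤ m)
    (hmp : 2 * m + 3 ≤ p) (h : (p : ℤ) ∣ (_root_.bernoulli (2 * m)).num) :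
    ∑ v ∈ range M, (((v + 1 : ℕ)) : ZMod p) ^ (2 * m - 1) = 0 := by
  have hpp : p.Prime := Fact.out
  have hB : ((_root_.bernoulli (2 * m) : ℚ) : ZMod p) = 0 := by
    rw [Rat.cast_def, (ZMod.intCast_zmod_eq_zero_iff_dvd _ p).2 h, zero_div]
  have hc : ¬ p ∣ 2 := by
    intro h2
    have := Nat.le_of_dvd (by norm_num) h2
    omega
  have h1 := Pool.Agent.TH350.SC.vor_bern (p := p) (k := 2 * m) (c := 2) (by omega) (by omega)
    (by omega) hc
  rw [hB, mul_zero] at h1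
  have hk0 : ((2 * m : ℕ) : ZMod p) ≠ 0 := by
    intro h2
    rw [ZMod.natCast_eq_zero_iff] at h2
    exact absurd (Nat.le_of_dvd (by omega) h2) (by omega)
  have h20 : ((2 : ℕ) : ZMod p) ≠ 0 := by
    intro h2
    rw [ZMod.natCast_eq_zero_iff] at h2
    exact hc h2
  have h2 : ∑ a ∈ range p, ((2 * a / p : ℕ) : ZMod p) * ((2 * a : ℕ) : ZMod p) ^ (2 * m - 1) = 0 :=
    (mul_eq_zero.1 h1.symm).resolve_left hk0
  have h3 : range p = range ((M + 1) + M) := by rw [hM]; congr 1; omega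
  have h4 : ∑ a ∈ range p, ((2 * a / p : ℕ) : ZMod p) * ((2 * a : ℕ) : ZMod p) ^ (2 * m - 1) =
      ∑ v ∈ range M, ((2 * (M + 1 + v) / p : ℕ) : ZMod p) *
        ((2 * (M + 1 + v) : ℕ) : ZMod p) ^ (2 * m - 1) := by
    rw [h3, sum_range_add]
    rw [sum_eq_zero (s := range (M + 1)), zero_add]
    intro a ha
    rw [mem_range] at ha
    rw [Nat.div_eq_of_lt (by omega), Nat.cast_zero, zero_mul]
  rw [h4] at h2
  have hodd : Odd (2 * m - 1) := ⟨m - 1, by omega⟩
  have h5 : ∑ v ∈ range M, ((2 * (M + 1 + v) / p : ℕ) : ZMod p) *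
        ((2 * (M + 1 + v) : ℕ) : ZMod p) ^ (2 * m - 1) =
      ∑ v ∈ range M, (fun w : ℕ => -(((2 : ℕ) : ZMod p) ^ (2 * m - 1) *
        (((w + 1 : ℕ)) : ZMod p) ^ (2 * m - 1))) (M - 1 - v) := by
    refine sum_congr rfl fun v hv => ?_
    rw [mem_range] at hv
    have h6 : 2 * (M + 1 + v) / p = 1 := by
      rw [Nat.div_eq_iff (by omega)]
      constructor
      · omega
      · omega
    have h7 : ((2 * (M + 1 + v) : ℕ) : ZMod p) = -(((2 : ℕ) : ZMod p) * (((M - 1 - v + 1 : ℕ)) : ZMod p)) := by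
      rw [eq_neg_iff_add_eq_zero, ← Nat.cast_mul, ← Nat.cast_add, ZMod.natCast_eq_zero_iff]
      refine ⟨2, ?_⟩
      omega
    rw [h6, h7, Nat.cast_one, one_mul, hodd.neg_pow, mul_pow]
  rw [h5, sum_range_reflect (fun w : ℕ => -(((2 : ℕ) : ZMod p) ^ (2 * m - 1) *
        (((w + 1 : ℕ)) : ZMod p) ^ (2 * m - 1))) M] at h2
  rw [sum_neg_distrib, neg_eq_zero, ← mul_sum] at h2
  exact (mul_eq_zero.1 h2).resolve_left (pow_ne_zero _ h20)

theorem main {p : ℕ} [Fact p.Prime] {M : ℕ} (hM : p = 2 * M + 1) {t d : ℕ} (htd : t * d = p - 1)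
    (ht : Odd t) (I : Finset ℕ)
    (hI : ∀ m ∈ I, 1 ≤ m ∧ 2 * m + 3 ≤ p ∧ Nat.gcd (2 * m - 1) (p - 1) = t ∧
      (p : ℤ) ∣ (_root_.bernoulli (2 * m)).num)
    (B : ℝ) (hB : ∀ χ : MulChar (ZMod p) ℂ, χ ≠ 1 →
      ‖∑ v ∈ range M, χ (((v + 1 : ℕ)) : ZMod p)‖ ≤ B) :
    (p : ℝ) ^ I.card ≤ B ^ d.totient := by
  classical
  have hpp : p.Prime := Fact.out
  have hM0 : 0 < M := by
    have := hpp.two_le
    omega
  have hd0 : 0 < d := by
    rcases Nat.eq_zero_or_pos d with h | h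
    · rw [h, mul_zero] at htd
      omega
    · exact h
  have ht0 : 0 < t := ht.pos
  have hcard : Nat.card (ZMod p)ˣ = p - 1 := by
    rw [Nat.card_eq_fintype_card, ZMod.card_units]
  obtain ⟨g, hg⟩ := IsCyclic.exists_generator (α := (ZMod p)ˣ)
  have hgo : orderOf g = p - 1 := by
    rw [← hcard]
    exact orderOf_eq_card_of_forall_mem_zpowers hg
  -- logarithms
  have hlog : ∀ v : ℕ, ∃ n : ℕ, v < M → ((g : ZMod p)) ^ n = (((v + 1 : ℕ)) : ZMod p) := by
    intro v
    by_cases hv : v < M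
    · have hne : (((v + 1 : ℕ)) : ZMod p) ≠ 0 := by
        intro h
        rw [ZMod.natCast_eq_zero_iff] at h
        exact absurd (Nat.le_of_dvd (by omega) h) (by omega)
      have h1 := hg (Units.mk0 _ hne)
      rw [← mem_powers_iff_mem_zpowers] at h1
      obtain ⟨n, hn⟩ := h1
      refine ⟨n, fun _ => ?_⟩
      have h2 := congrArg (fun u : (ZMod p)ˣ => (u : ZMod p)) hn
      simpa using h2
    · exact ⟨0, fun h => absurd h hv⟩
  choose e he using hlog
  set P : ℤ[X] := ∑ v ∈ range M, X ^ (e v) with hP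
  have hPe : ∀ {K : Type} [CommRing K] (x : K), P.eval₂ (Int.castRingHom K) x =
      ∑ v ∈ range M, x ^ (e v) := by
    intro K _ x
    rw [hP, eval₂_finsetSum]
    exact sum_congr rfl fun v _ => by rw [eval₂_X_pow]
  -- the residues
  set R : Finset (ZMod p) := I.image (fun m => (g : ZMod p) ^ (2 * m - 1)) with hR
  have hRcard : R.card = I.card := by
    apply card_image_of_injOn
    intro a ha b hb hab
    obtain ⟨ha1, ha2, -, -⟩ := hI a ha
    obtain ⟨hb1, hb2, -, -⟩ := hI b hb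
    have h1 : g ^ (2 * a - 1) = g ^ (2 * b - 1) := by
      ext
      simpa using hab
    have h2 := pow_injOn_Iio_orderOf (x := g) (show 2 * a - 1 ∈ Set.Iio (orderOf g) by
      rw [hgo, Set.mem_Iio]; omega) (show 2 * b - 1 ∈ Set.Iio (orderOf g) by
      rw [hgo, Set.mem_Iio]; omega) h1
    omega
  have hR' : ∀ ρ ∈ R, IsPrimitiveRoot ρ d ∧ P.eval₂ (Int.castRingHom (ZMod p)) ρ = 0 := by
    intro ρ hρ
    rw [hR, mem_image] at hρ
    obtain ⟨m, hm, rfl⟩ := hρ
    obtain ⟨h1, h2, h3, h4⟩ := hI m hm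
    constructor
    · have h5 : orderOf (g ^ (2 * m - 1)) = d := by
        rw [orderOf_pow' g (by omega), hgo, Nat.gcd_comm, h3, ← htd]
        exact Nat.mul_div_cancel_left d ht0
      have h6 : IsPrimitiveRoot (g ^ (2 * m - 1)) d := by
        rw [← h5]
        exact IsPrimitiveRoot.orderOf _
      have h7 := IsPrimitiveRoot.coe_units_iff.2 h6
      simpa using h7
    · rw [hPe, ← half_pow hM h1 h2 h4]
      refine sum_congr rfl fun v hv => ?_
      rw [← he v (mem_range.1 hv), ← pow_mul, ← pow_mul, mul_comm]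
  have hdvd := pow_dvd_det p d hd0 ⟨t, by rw [← htd, mul_comm]⟩ P R hR'
  rw [hRcard] at hdvd
  -- the characters
  have hgM : (g : ZMod p) ^ M = -1 := by
    have h1 : ((g : ZMod p) ^ M) ^ 2 = 1 := by
      rw [← pow_mul, mul_comm, show 2 * M = orderOf g by rw [hgo]; omega]
      rw [← Units.val_pow_eq_pow_val, pow_orderOf_eq_one, Units.val_one]
    rw [pow_two] at h1
    rcases mul_self_eq_one_iff.1 h1 with h | h
    · exfalso
      have h2 : g ^ M = 1 := by
        ext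
        simpa using h
      have h3 := orderOf_dvd_of_pow_eq_one h2
      rw [hgo] at h3
      exact absurd (Nat.le_of_dvd hM0 h3) (by omega)
    · exact h
  have hchar : ∀ ζ ∈ primitiveRoots d ℂ, ∃ χ : DirichletCharacter ℂ p, χ.Odd ∧ χ ≠ 1 ∧
      P.eval₂ (Int.castRingHom ℂ) ζ = ∑ v ∈ range M, χ (((v + 1 : ℕ)) : ZMod p) := by
    intro ζ hζ
    have hζ' := (mem_primitiveRoots hd0).1 hζ
    have hζ1 : ζ ^ (p - 1) = 1 := by
      rw [← htd, mul_comm, pow_mul, hζ'.pow_eq_one, one_pow]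
    have hζ0 : ζ ≠ 0 := hζ'.ne_zero hd0.ne'
    have hmem : Units.mk0 ζ hζ0 ∈ rootsOfUnity (Fintype.card (ZMod p)ˣ) ℂ := by
      rw [mem_rootsOfUnity, ZMod.card_units]
      ext
      simpa using hζ1
    set χ : DirichletCharacter ℂ p := MulChar.ofRootOfUnity hmem hg with hχ
    have hχg : χ (g : ZMod p) = ζ := by
      rw [hχ, MulChar.ofRootOfUnity_spec]
      rfl
    have hodd : χ.Odd := by
      unfold DirichletCharacter.Odd
      rw [← hgM, map_pow, hχg]
      have h1 : (ζ ^ M) ^ 2 = 1 := by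
        rw [← pow_mul, mul_comm, show 2 * M = p - 1 by omega]
        exact hζ1
      rw [pow_two] at h1
      rcases mul_self_eq_one_iff.1 h1 with h | h
      · exfalso
        have h3 := hζ'.dvd_of_pow_eq_one M h
        obtain ⟨s, hs⟩ := h3
        have h4 : t * d = (2 * s) * d := by
          rw [htd, hM, hs]
          simp
          ring
        have h5 := Nat.eq_of_mul_eq_mul_right hd0 h4
        rw [h5] at ht
        exact (Nat.not_odd_iff_even.2 (even_two_mul s)) ht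
      · exact h
    refine ⟨χ, hodd, ?_, ?_⟩
    · intro h1
      unfold DirichletCharacter.Odd at hodd
      rw [h1, MulChar.one_apply (by simp : IsUnit (-1 : ZMod p))] at hodd
      norm_num at hodd
    · rw [hPe]
      refine sum_congr rfl fun v hv => ?_
      rw [← he v (mem_range.1 hv), map_pow, hχg]
  have hdet := det_MM d hd0 P
  have hne : (MM d P).det ≠ 0 := by
    intro h
    rw [h, Int.cast_zero] at hdet
    obtain ⟨ζ, hζ, hζ0⟩ := prod_eq_zero_iff.1 hdet.symm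
    obtain ⟨χ, h1, -, h3⟩ := hchar ζ hζ
    rw [h3] at hζ0
    exact half_ne_zero hM χ h1 hζ0
  have hle : (|((MM d P).det : ℤ)| : ℝ) ≤ B ^ d.totient := by
    have h1 : ((|((MM d P).det : ℤ)| : ℤ) : ℝ) = ‖(((MM d P).det : ℤ) : ℂ)‖ := by
      rw [Complex.norm_intCast, Int.cast_abs]
    rw [← Int.cast_abs, h1, hdet, norm_prod, ← Complex.card_primitiveRoots d]
    rw [← prod_const]
    refine prod_le_prod (fun _ _ => norm_nonneg _) fun ζ hζ => ?_
    obtain ⟨χ, -, h2, h3⟩ := hchar ζ hζ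
    rw [h3]
    exact hB χ h2
  have h1 : (p : ℤ) ^ I.card ≤ |(MM d P).det| :=
    Int.le_of_dvd (abs_pos.2 hne) ((dvd_abs _ _).2 hdvd)
  have h2 : ((p : ℤ) ^ I.card : ℝ) ≤ ((|(MM d P).det| : ℤ) : ℝ) := by exact_mod_cast h1
  calc (p : ℝ) ^ I.card = (((p : ℤ) ^ I.card : ℤ) : ℝ) := by push_cast; rfl
    _ ≤ ((|(MM d P).det| : ℤ) : ℝ) := by exact_mod_cast h1
    _ = |((MM d P).det : ℝ)| := by rw [Int.cast_abs]
    _ ≤ B ^ d.totient := hle

end Pool.Agent.Y811.RG
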