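import Mathlib
import Pool.Agent.Y811.RG.Main

set_option autoImplicit false

/-!
Irregular indices in a Galois orbit: the size of the orbit and final forms.
-/

namespace Pool.Agent.Y811.RG

open Finset

/-- the indices `m` with `gcd (2m-1, p-1) = t` -/
def orb (p t : ℕ) : Finset ℕ :=
  (Icc 1 ((p - 3) / 2)).filter (fun m => Nat.gcd (2 * m - 1) (p - 1) = t)

theorem card_orb {p t d : ℕ} (hp : 5 ≤ p) (hpo : Odd p) (ht : Odd t) (htd : t * d = p - 1) :
    (orb p t).card + (if t = 1 then 1 else 0) = d.totient := by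
  classical
  have ht0 : 0 < t := ht.pos
  have hd0 : 0 < d := by
    rcases Nat.eq_zero_or_pos d with h | h
    · rw [h, mul_zero] at htd
      omega
    · exact h
  obtain ⟨q, hq⟩ := hpo
  have hde : Even d := by
    rcases Nat.even_or_odd d with h | h
    · exact h
    · exfalso
      have h1 : Odd (p - 1) := by rw [← htd]; exact ht.mul h
      rw [hq] at h1
      exact (Nat.not_odd_iff_even.2 (by simp)) h1
  have hd2 : 2 ≤ d := by
    obtain ⟨k, hk⟩ := hde
    omega
  rw [Nat.totient_eq_card_coprime]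
  obtain ⟨s, hs⟩ := ht
  -- the image
  have himg : ∀ u ∈ (range d).filter (fun a => d.Coprime a), Odd u := by
    intro u hu
    rw [mem_filter] at hu
    rcases Nat.even_or_odd u with h | h
    · exfalso
      have h1 : 2 ∣ Nat.gcd d u := Nat.dvd_gcd hde.two_dvd h.two_dvd
      rw [hu.2] at h1
      omega
    · exact h
  have hinj : Set.InjOn (fun u => (t * u + 1) / 2) ((range d).filter (fun a => d.Coprime a) : Set ℕ) := by
    intro a ha b hb h
    have h1 := himg a (by simpa using ha)
    have h2 := himg b (by simpa using hb)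
    have h3 : Odd (t * a) := Odd.mul ⟨s, hs⟩ h1
    have h4 : Odd (t * b) := Odd.mul ⟨s, hs⟩ h2
    obtain ⟨x, hx⟩ := h3
    obtain ⟨y, hy⟩ := h4
    simp only [hx, hy] at h
    have h5 : t * a = t * b := by omega
    exact Nat.eq_of_mul_eq_mul_left ht0 h5
  have hcop : d.Coprime (d - 1) := by
    have h1 : Nat.Coprime (d - 1 + 1) (d - 1) := (Nat.coprime_self_add_left).2 (Nat.coprime_one_left _)
    rwa [show d - 1 + 1 = d by omega] at h1
  have hset : orb p t = (((range d).filter (fun a => d.Coprime a)).filter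
      (fun u => ¬ (t = 1 ∧ u = d - 1))).image (fun u => (t * u + 1) / 2) := by
    ext m
    unfold orb
    rw [mem_filter, mem_Icc, mem_image]
    constructor
    · rintro ⟨⟨h1, h2⟩, h3⟩
      have h4 : t ∣ 2 * m - 1 := by rw [← h3]; exact Nat.gcd_dvd_left _ _
      obtain ⟨u, hu⟩ := h4
      have h5 : Nat.gcd u d = 1 := by
        have h6 : Nat.gcd (t * u) (t * d) = t := by rw [← hu, htd]; exact h3
        rw [Nat.gcd_mul_left] at h6
        exact Nat.eq_of_mul_eq_mul_left ht0 (by rw [h6, mul_one])
      have h7 : t * u < t * d := by rw [← hu, htd]; omega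
      refine ⟨u, ?_, ?_⟩
      · rw [mem_filter, mem_filter, mem_range]
        refine ⟨⟨Nat.lt_of_mul_lt_mul_left h7, ?_⟩, ?_⟩
        · rw [Nat.Coprime, Nat.gcd_comm]
          exact h5
        · rintro ⟨h8, h9⟩
          rw [h8, one_mul] at hu htd
          omega
      · rw [← hu]
        omega
    · rintro ⟨u, hu, rfl⟩
      have hu1 := (mem_filter.1 hu).1
      have hodd := himg u hu1
      rw [mem_filter, mem_filter, mem_range] at hu
      obtain ⟨⟨h1, h2⟩, h3⟩ := hu
      have h4 : Odd (t * u) := Odd.mul ⟨s, hs⟩ hodd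
      obtain ⟨x, hx⟩ := h4
      have h6 : 2 * ((t * u + 1) / 2) - 1 = t * u := by rw [hx]; omega
      have h7 : t * u + t ≤ t * d := by
        have : t * (u + 1) ≤ t * d := Nat.mul_le_mul_left t h1
        rwa [mul_add, mul_one] at this
      have h8 : t * u + 3 ≤ t * d := by
        rcases Nat.lt_or_ge t 3 with h9 | h9
        · have h10 : t = 1 := by omega
          have h11 : u ≠ d - 1 := fun h => h3 ⟨h10, h⟩
          rw [h10] at h7 ⊢
          rw [one_mul, one_mul]
          obtain ⟨y, hy⟩ := hodd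
          obtain ⟨k, hk⟩ := hde
          omega
        · omega
      refine ⟨⟨?_, ?_⟩, ?_⟩
      · rw [hx]; omega
      · rw [htd] at h8
        rw [hx] at h8 ⊢
        omega
      · rw [h6, ← htd, Nat.gcd_mul_left]
        have h9 : Nat.gcd u d = 1 := by rw [Nat.gcd_comm]; exact h2
        rw [h9, mul_one]
  rw [hset, card_image_of_injOn]
  · by_cases h1 : t = 1
    · rw [if_pos h1]
      have h2 : ((range d).filter (fun a => d.Coprime a)).filter (fun u => ¬ (t = 1 ∧ u = d - 1)) =
          ((range d).filter (fun a => d.Coprime a)).erase (d - 1) := by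
        ext u
        rw [mem_filter, mem_erase]
        constructor
        · rintro ⟨h3, h4⟩
          exact ⟨fun h => h4 ⟨h1, h⟩, h3⟩
        · rintro ⟨h3, h4⟩
          exact ⟨h4, fun h => h3 h.2⟩
      have hmem : d - 1 ∈ (range d).filter (fun a => d.Coprime a) := by
        rw [mem_filter, mem_range]
        exact ⟨by omega, hcop⟩
      rw [h2, card_erase_of_mem hmem]
      have := card_pos.2 ⟨_, hmem⟩
      omega
    · rw [if_neg h1, add_zero]
      congr 1
      apply filter_true_of_mem
      intro u _ h2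
      exact h1 h2.1
  · intro a ha b hb h
    exact hinj (by
      rw [mem_coe] at ha ⊢
      exact (mem_filter.1 ha).1) (by
      rw [mem_coe] at hb ⊢
      exact (mem_filter.1 hb).1) h

/-- the irregular indices of the orbit -/
def irr (p t : ℕ) : Finset ℕ :=
  (orb p t).filter (fun m => (p : ℤ) ∣ (bernoulli (2 * m)).num)

theorem irr_mem {p t m : ℕ} (hp : 5 ≤ p) (h : m ∈ irr p t) : 1 ≤ m ∧ 2 * m + 3 ≤ p ∧
    Nat.gcd (2 * m - 1) (p - 1) = t ∧ (p : ℤ) ∣ (bernoulli (2 * m)).num := by
  unfold irr orb at h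
  rw [mem_filter, mem_filter, mem_Icc] at h
  obtain ⟨⟨⟨h1, h2⟩, h3⟩, h4⟩ := h
  exact ⟨h1, by omega, h3, h4⟩

theorem irr_bound {p : ℕ} (hp : p.Prime) (hp5 : 5 ≤ p) {t d : ℕ} (htd : t * d = p - 1)
    (ht : Odd t) : (p : ℝ) ^ (irr p t).card ≤ (Real.sqrt p * Real.log p) ^ d.totient := by
  have : Fact p.Prime := ⟨hp⟩
  obtain ⟨M, hM⟩ : ∃ M, p = 2 * M + 1 := by
    rcases hp.eq_two_or_odd' with h | h
    · omega
    · exact h
  refine main hM htd ht (irr p t) (fun m hm => irr_mem hp5 hm) _ fun χ hχ => ?_
  have h1 := Pool.Agent.TH487.RP.polya_vinogradov p (by omega) χ hχ (M + 1)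
  rw [sum_range_succ', Nat.cast_zero, MulChar.map_zero, add_zero] at h1
  exact h1

theorem irr_lt {p : ℕ} (hp : p.Prime) (hp5 : 5 ≤ p) {t d : ℕ} (htd : t * d = p - 1)
    (ht : Odd t) : (irr p t).card < (orb p t).card := by
  classical
  have : Fact p.Prime := ⟨hp⟩
  have hpo : Odd p := by
    rcases hp.eq_two_or_odd' with h | h
    · omega
    · exact h
  obtain ⟨M, hM⟩ : ∃ M, p = 2 * M + 1 := hpo
  rcases eq_or_ne t 1 with h1 | h1
  · apply card_lt_card
    rw [ssubset_iff_of_subset (show irr p t ⊆ orb p t from filter_subset _ _)]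
    refine ⟨1, ?_, ?_⟩
    · unfold orb
      rw [mem_filter, mem_Icc]
      refine ⟨⟨le_rfl, by omega⟩, ?_⟩
      rw [h1]
      norm_num
    · intro h
      have h2 := (irr_mem hp5 h).2.2.2
      have h3 : (bernoulli (2 * 1)).num = 1 := by
        rw [mul_one, bernoulli_two]
        norm_num
      rw [h3] at h2
      have h4 := Int.le_of_dvd (by norm_num) h2
      omega
  · have hc := card_orb hp5 ⟨M, hM⟩ ht htd
    rw [if_neg h1, add_zero] at hc
    have hb := main hM htd ht (irr p t) (fun m hm => irr_mem hp5 hm) (M : ℝ) (fun χ _ => by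
      refine (norm_sum_le _ _).trans ?_
      refine (sum_le_card_nsmul _ _ 1 fun v _ => DirichletCharacter.norm_le_one χ _).trans ?_
      rw [card_range]
      simp)
    by_contra hcon
    push Not at hcon
    have hd0 : 0 < d.totient := by
      apply Nat.totient_pos.2
      rcases Nat.eq_zero_or_pos d with h | h
      · rw [h, mul_zero] at htd
        omega
      · exact h
    have h2 : (p : ℝ) ^ d.totient ≤ (p : ℝ) ^ (irr p t).card := by
      apply pow_le_pow_right₀
      · exact_mod_cast hp.one_lt.le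
      · rw [← hc]
        exact hcon
    have h3 : (M : ℝ) ^ d.totient < (p : ℝ) ^ d.totient := by
      apply pow_lt_pow_left₀
      · exact_mod_cast (show M < p by omega)
      · exact Nat.cast_nonneg M
      · omega
    linarith

end Pool.Agent.Y811.RG
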